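import Pool.Agent.SSR75.Defs

/-!
# The size of the instance
-/

set_option autoImplicit false

namespace Pool.Agent.SSR75

private def Bd (N n K : ℕ) (q : ℚ) : Prop :=
  ∃ A : ℤ, q = (A : ℚ) / (60 * (N : ℚ)) ∧ |A| ≤ 600 * (N : ℤ) ^ 2 * (n + 1) * (K + 1)

private theorem Bd.mk {N n K : ℕ} (hN : 12 ≤ N) {q : ℚ} (A : ℤ) (a b c e : ℤ)
    (h : 60 * (N : ℚ) * q = A)
    (h1 : |A| ≤ a * (N : ℤ) ^ 2 * n + b * (N : ℤ) ^ 2 + c * N * K + e * N * n)
    (_ : 0 ≤ a) (hb : 0 ≤ b) (hc : 0 ≤ c) (he : 0 ≤ e)
    (hab : a + e ≤ 600) (hbc : b + c ≤ 600) : Bd N n K q := by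
  have hN0 : (60 * (N : ℚ)) ≠ 0 := by
    have : (0 : ℚ) < N := by exact_mod_cast (by omega : 0 < N)
    positivity
  refine ⟨A, by rw [← h]; field_simp, h1.trans ?_⟩
  have hN1 : (1 : ℤ) ≤ N := by exact_mod_cast (by omega : 1 ≤ N)
  have hn : (0 : ℤ) ≤ n := Int.natCast_nonneg n
  have hK : (0 : ℤ) ≤ K := Int.natCast_nonneg K
  have hS : (N : ℤ) ≤ (N : ℤ) ^ 2 := by nlinarith
  have hS0 : (0 : ℤ) ≤ (N : ℤ) ^ 2 := by positivity
  have e1 : c * N * K ≤ c * (N : ℤ) ^ 2 * K := by
    have := mul_le_mul_of_nonneg_left hS hc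
    exact mul_le_mul_of_nonneg_right this hK
  have e2 : e * N * n ≤ e * (N : ℤ) ^ 2 * n := by
    have := mul_le_mul_of_nonneg_left hS he
    exact mul_le_mul_of_nonneg_right this hn
  have e3 : (0 : ℤ) ≤ (N : ℤ) ^ 2 * n := mul_nonneg hS0 hn
  have e4 : (0 : ℤ) ≤ (N : ℤ) ^ 2 * K := mul_nonneg hS0 hK
  have e5 : (0 : ℤ) ≤ (N : ℤ) ^ 2 * n * K := mul_nonneg e3 hK
  have f1 : (a + e) * ((N : ℤ) ^ 2 * n) ≤ 600 * ((N : ℤ) ^ 2 * n) :=
    mul_le_mul_of_nonneg_right hab e3
  have f2 : b * (N : ℤ) ^ 2 ≤ 600 * (N : ℤ) ^ 2 :=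
    mul_le_mul_of_nonneg_right (by linarith) hS0
  have f3 : c * ((N : ℤ) ^ 2 * K) ≤ 600 * ((N : ℤ) ^ 2 * K) :=
    mul_le_mul_of_nonneg_right (by linarith) e4
  nlinarith

private theorem sum_eq (N : ℕ) (d : ℕ → ℕ) (hN : 12 ≤ N) (n : ℕ) :
    60 * (N : ℚ) * (6 / 5 * rsum N d n) =
      36 * ((n : ℚ) * (N : ℚ) ^ 2 + ∑ i ∈ Finset.range n, (d (i + 1) : ℚ)) := by
  have hN0 : (N : ℚ) ≠ 0 := by
    have : (0 : ℚ) < N := by exact_mod_cast (by omega : 0 < N)
    positivity
  have h : ∀ m : ℕ, 60 * (N : ℚ) * (6 / 5 * rsum N d m) =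
      36 * ((m : ℚ) * (N : ℚ) ^ 2 + ∑ i ∈ Finset.range m, (d (i + 1) : ℚ)) := by
    intro m
    induction m with
    | zero => simp [rsum]
    | succ m ih =>
      rw [rsum, Finset.sum_range_succ, ← rsum, Finset.sum_range_succ, mul_add, mul_add, ih, rad]
      push_cast
      field_simp
      ring
  exact h n

theorem nums_bound {N : ℕ} {d : ℕ → ℕ} (hN : 12 ≤ N) (hd : ∀ i, d i ≤ N) (n K : ℕ) :
    ∀ q ∈ (inst N d n K).nums, ∃ A : ℤ, q = (A : ℚ) / (60 * (N : ℚ)) ∧
      |A| ≤ 600 * (N : ℤ) ^ 2 * (n + 1) * (K + 1) := by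
  have hN0 : (N : ℚ) ≠ 0 := by
    have : (0 : ℚ) < N := by exact_mod_cast (by omega : 0 < N)
    positivity
  have hNz : (12 : ℤ) ≤ N := by exact_mod_cast hN
  have hS : 12 * (N : ℤ) ≤ (N : ℤ) ^ 2 := by nlinarith
  have hn : (0 : ℤ) ≤ n := Int.natCast_nonneg n
  have hK : (0 : ℤ) ≤ K := Int.natCast_nonneg K
  have hd0 : ∀ i, (0 : ℤ) ≤ d i := fun i => Int.natCast_nonneg _
  have hd1 : ∀ i, (d i : ℤ) ≤ N := fun i => by exact_mod_cast hd i
  have hs0 : (0 : ℤ) ≤ ∑ i ∈ Finset.range n, (d (i + 1) : ℤ) :=
    Finset.sum_nonneg fun i _ => hd0 _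
  have hs1 : ∑ i ∈ Finset.range n, (d (i + 1) : ℤ) ≤ n * N := by
    have := Finset.sum_le_card_nsmul (Finset.range n) (fun i => (d (i + 1) : ℤ)) N
      (fun i _ => hd1 _)
    simpa using this
  have hSn : (0 : ℤ) ≤ (N : ℤ) ^ 2 * n := by positivity
  have hNn : (0 : ℤ) ≤ (N : ℤ) * n := by positivity
  have hNK : (0 : ℤ) ≤ (N : ℤ) * K := by positivity
  have one : Bd N n K 1 := Bd.mk hN (60 * N) 0 60 0 0 (by push_cast; ring)
    (by rw [abs_of_nonneg (by positivity)]; nlinarith) (by norm_num) (by norm_num) (by norm_num)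
    (by norm_num) (by norm_num) (by norm_num)
  have mone : Bd N n K (-1) := Bd.mk hN (-(60 * N)) 0 60 0 0 (by push_cast; ring)
    (by rw [abs_neg, abs_of_nonneg (by positivity)]; nlinarith) (by norm_num) (by norm_num)
    (by norm_num) (by norm_num) (by norm_num) (by norm_num)
  have hsq : ∀ q ∈ square.flatMap (fun v => [v.1, v.2]), Bd N n K q := by
    intro q hq
    simp only [square, List.flatMap_cons, List.flatMap_nil, List.append_nil, List.mem_append,
      List.mem_cons, List.not_mem_nil, or_false] at hq
    rcases hq with (h | h) | (h | h) | (h | h) | (h | h) <;> rw [h] <;> assumption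
  intro q hq
  change Bd N n K q
  rw [Inst.nums, List.mem_append] at hq
  rcases hq with hq | hq
  · simp only [inst, List.flatMap_cons, List.flatMap_nil, List.append_nil, List.mem_append,
      List.mem_cons, List.not_mem_nil, or_false] at hq
    have hsum := sum_eq N d hN n
    rcases hq with (h | h | h | h | h) | (h | h | h | h | h)
    · exact Bd.mk hN (90 * (N : ℤ) ^ 2) 0 90 0 0 (by rw [h]; push_cast; ring)
        (by rw [abs_of_nonneg (by positivity)]; nlinarith) (by norm_num) (by norm_num)
        (by norm_num) (by norm_num) (by norm_num) (by norm_num)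
    · exact Bd.mk hN 0 0 0 0 0 (by rw [h]; push_cast; ring) (by simp) (by norm_num)
        (by norm_num) (by norm_num) (by norm_num) (by norm_num) (by norm_num)
    · rw [h]; exact one
    · exact Bd.mk hN (-(120 * N)) 0 120 0 0 (by rw [h]; push_cast; ring)
        (by rw [abs_neg, abs_of_nonneg (by positivity)]; nlinarith) (by norm_num)
        (by norm_num) (by norm_num) (by norm_num) (by norm_num) (by norm_num)
    · exact Bd.mk hN 0 0 0 0 0 (by rw [h]; push_cast; ring) (by simp) (by norm_num)
        (by norm_num) (by norm_num) (by norm_num) (by norm_num) (by norm_num)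
    · exact Bd.mk hN (180 * (N : ℤ) ^ 2 * n + 90 * (N : ℤ) ^ 2) 180 90 0 0
        (by rw [h]; push_cast; ring) (by rw [abs_of_nonneg (by positivity)]; nlinarith)
        (by norm_num) (by norm_num) (by norm_num) (by norm_num) (by norm_num) (by norm_num)
    · exact Bd.mk hN 0 0 0 0 0 (by rw [h]; push_cast; ring) (by simp) (by norm_num)
        (by norm_num) (by norm_num) (by norm_num) (by norm_num) (by norm_num)
    · rw [h]; exact one
    · refine Bd.mk hN (180 * (N : ℤ) ^ 2 * n - 120 * N +
          36 * (n * (N : ℤ) ^ 2 + ∑ i ∈ Finset.range n, (d (i + 1) : ℤ)) - 120 * N * K)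
        216 120 120 36 ?_ ?_ (by norm_num) (by norm_num) (by norm_num) (by norm_num)
        (by norm_num) (by norm_num)
      · rw [h]
        push_cast
        linear_combination hsum
      · rw [abs_le]
        constructor <;> nlinarith
    · refine Bd.mk hN (180 * (N : ℤ) ^ 2 * n +
          36 * (n * (N : ℤ) ^ 2 + ∑ i ∈ Finset.range n, (d (i + 1) : ℤ)))
        216 120 120 36 ?_ ?_ (by norm_num) (by norm_num) (by norm_num) (by norm_num)
        (by norm_num) (by norm_num)
      · rw [h]
        push_cast
        linear_combination hsum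
      · rw [abs_le]
        constructor <;> nlinarith
  · simp only [inst, List.mem_flatMap, List.mem_append, List.mem_map, List.mem_range] at hq
    have hn1 : ∀ i : ℕ, i ≤ n → (N : ℤ) ^ 2 * i ≤ (N : ℤ) ^ 2 * n := fun i hi =>
      mul_le_mul_of_nonneg_left (by exact_mod_cast hi) (by positivity)
    have hn0 : ∀ i : ℕ, (0 : ℤ) ≤ (N : ℤ) ^ 2 * i := fun i => by positivity
    obtain ⟨s, hs, hq⟩ := hq
    rcases hs with (⟨i, hi, rfl⟩ | ⟨i, hi, rfl⟩) | ⟨i, hi, rfl⟩
    · have g1 := hn1 i (by omega)
      have g0 := hn0 i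
      have a0 := hd0 i
      have a1 := hd1 i
      have b0 := hd0 (i + 1)
      have b1 := hd1 (i + 1)
      rcases hq with hq | hq
      · simp only [link, lrad, rad, List.mem_cons, List.not_mem_nil, or_false] at hq
        rcases hq with h | h | h
        · refine Bd.mk hN (180 * (N : ℤ) ^ 2 * i + 90 * (N : ℤ) ^ 2 + 3 * (d (i + 1) - d i))
            180 100 0 0 ?_ ?_ (by norm_num) (by norm_num) (by norm_num) (by norm_num)
            (by norm_num) (by norm_num)
          · rw [h]
            push_cast
            field_simp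
            ring
          · rw [abs_le]
            constructor <;> nlinarith
        · refine Bd.mk hN (48 * (N : ℤ) ^ 2 + 4 * (d i + d (i + 1)))
            0 100 0 0 ?_ ?_ (by norm_num) (by norm_num) (by norm_num) (by norm_num)
            (by norm_num) (by norm_num)
          · rw [h]
            push_cast
            field_simp
            ring
          · rw [abs_le]
            constructor <;> nlinarith
        · refine Bd.mk hN (60 * (N : ℤ) ^ 2 + 5 * (d i + d (i + 1)))
            0 100 0 0 ?_ ?_ (by norm_num) (by norm_num) (by norm_num) (by norm_num)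
            (by norm_num) (by norm_num)
          · rw [h]
            push_cast
            field_simp
            ring
          · rw [abs_le]
            constructor <;> nlinarith
      · exact hsq q (List.mem_flatMap.2 hq)
    · have g1 := hn1 (i + 1) (by omega)
      have g0 := hn0 (i + 1)
      have b0 := hd0 (i + 1)
      have b1 := hd1 (i + 1)
      push_cast at g1 g0
      rcases hq with hq | hq
      · simp only [left, rad, List.mem_cons, List.not_mem_nil, or_false] at hq
        rcases hq with h | h | h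
        · refine Bd.mk hN (180 * (N : ℤ) ^ 2 * (i + 1) - 30 * (N : ℤ) ^ 2 + 30 * d (i + 1))
            180 100 0 0 ?_ ?_ (by norm_num) (by norm_num) (by norm_num) (by norm_num)
            (by norm_num) (by norm_num)
          · rw [h]
            push_cast
            field_simp
            ring
          · rw [abs_le]
            constructor <;> nlinarith
        · refine Bd.mk hN (-(18 * (N : ℤ) ^ 2 + 18 * d (i + 1)))
            0 100 0 0 ?_ ?_ (by norm_num) (by norm_num) (by norm_num) (by norm_num)
            (by norm_num) (by norm_num)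
          · rw [h]
            push_cast
            field_simp
            ring
          · rw [abs_le]
            constructor <;> nlinarith
        · refine Bd.mk hN (30 * (N : ℤ) ^ 2 + 30 * d (i + 1))
            0 100 0 0 ?_ ?_ (by norm_num) (by norm_num) (by norm_num) (by norm_num)
            (by norm_num) (by norm_num)
          · rw [h]
            push_cast
            field_simp
            ring
          · rw [abs_le]
            constructor <;> nlinarith
      · exact hsq q (List.mem_flatMap.2 hq)
    · have g1 := hn1 (i + 1) (by omega)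
      have g0 := hn0 (i + 1)
      have b0 := hd0 (i + 1)
      have b1 := hd1 (i + 1)
      push_cast at g1 g0
      rcases hq with hq | hq
      · simp only [right, rad, List.mem_cons, List.not_mem_nil, or_false] at hq
        rcases hq with h | h | h
        · refine Bd.mk hN (180 * (N : ℤ) ^ 2 * (i + 1) + 30 * (N : ℤ) ^ 2 - 30 * d (i + 1))
            180 100 0 0 ?_ ?_ (by norm_num) (by norm_num) (by norm_num) (by norm_num)
            (by norm_num) (by norm_num)
          · rw [h]
            push_cast
            field_simp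
            ring
          · rw [abs_le]
            constructor <;> nlinarith
        · refine Bd.mk hN (-(18 * (N : ℤ) ^ 2 + 18 * d (i + 1)))
            0 100 0 0 ?_ ?_ (by norm_num) (by norm_num) (by norm_num) (by norm_num)
            (by norm_num) (by norm_num)
          · rw [h]
            push_cast
            field_simp
            ring
          · rw [abs_le]
            constructor <;> nlinarith
        · refine Bd.mk hN (30 * (N : ℤ) ^ 2 + 30 * d (i + 1))
            0 100 0 0 ?_ ?_ (by norm_num) (by norm_num) (by norm_num) (by norm_num)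
            (by norm_num) (by norm_num)
          · rw [h]
            push_cast
            field_simp
            ring
          · rw [abs_le]
            constructor <;> nlinarith
      · exact hsq q (List.mem_flatMap.2 hq)

end Pool.Agent.SSR75
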