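import Mathlib

/-!
# Lipschitz data on planar domains: definitions, and the instances for sums of square roots
-/

set_option autoImplicit false

noncomputable section

namespace Pool.Agent.SSR75

/-- a disk with rational centre and radius -/
structure Disk where
  /-- the first coordinate of the centre -/
  x : ℚ
  /-- the second coordinate of the centre -/
  y : ℚ
  /-- the radius -/
  r : ℚ

/-- the points of the open disk -/
def Disk.set (D : Disk) : Set (ℝ × ℝ) :=
  {z | (z.1 - (D.x : ℝ)) ^ 2 + (z.2 - (D.y : ℝ)) ^ 2 < (D.r : ℝ) ^ 2}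

/-- a function step `(a, [p, q])` -/
structure FStep where
  /-- the disk -/
  a : Disk
  /-- the lower bound of the values -/
  p : ℚ
  /-- the upper bound of the values -/
  q : ℚ

/-- a derivative step `(c, b)`, where the polygon `b` is given by its vertices -/
structure DStep where
  /-- the disk -/
  c : Disk
  /-- the vertices -/
  b : List (ℚ × ℚ)

/-- the polygon: the convex hull of the vertices -/
def DStep.poly (s : DStep) : Set (ℝ × ℝ) :=
  convexHull ℝ {w | ∃ v ∈ s.b, w = ((v.1 : ℝ), (v.2 : ℝ))}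

/-- an instance: the function steps and the derivative steps -/
structure Inst where
  /-- the function steps -/
  f : List FStep
  /-- the derivative steps -/
  g : List DStep

/-- The radii are positive, `p ≤ q`, there are vertices, and each of the two families is a step
function: at every point the intervals (the polygons) of the steps whose disks contain the point have
a common point. -/
def Inst.Valid (I : Inst) : Prop :=
  (∀ s ∈ I.f, 0 < s.a.r ∧ s.p ≤ s.q) ∧ (∀ s ∈ I.g, 0 < s.c.r ∧ s.b ≠ []) ∧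
  (∀ z : ℝ × ℝ, ∃ t : ℝ, ∀ s ∈ I.f, z ∈ s.a.set → (s.p : ℝ) ≤ t ∧ t ≤ (s.q : ℝ)) ∧
  ∀ z : ℝ × ℝ, ∃ w : ℝ × ℝ, ∀ s ∈ I.g, z ∈ s.c.set → w ∈ s.poly

/-- the union of the disks of the derivative steps -/
def Inst.V (I : Inst) : Set (ℝ × ℝ) := {z | ∃ s ∈ I.g, z ∈ s.c.set}

/-- There is a locally Lipschitz function on `V` with `p ≤ h ≤ q` on `a ∩ V` for all function steps,
and with `h(x) - h(y) ∈ b(x - y) = {⟨w, x - y⟩ | w ∈ b}` for `x, y ∈ c` for all derivative steps. -/
def Inst.Consistent (I : Inst) : Prop :=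
  ∃ h : ℝ × ℝ → ℝ, LocallyLipschitzOn I.V h ∧
    (∀ s ∈ I.f, ∀ z ∈ s.a.set ∩ I.V, (s.p : ℝ) ≤ h z ∧ h z ≤ (s.q : ℝ)) ∧
    ∀ s ∈ I.g, ∀ x ∈ s.c.set, ∀ y ∈ s.c.set, ∃ w ∈ s.poly,
      h x - h y = w.1 * (x.1 - y.1) + w.2 * (x.2 - y.2)

/-- all rational numbers of the instance -/
def Inst.nums (I : Inst) : List ℚ :=
  (I.f.flatMap fun s => [s.a.x, s.a.y, s.a.r, s.p, s.q]) ++
    I.g.flatMap fun s => [s.c.x, s.c.y, s.c.r] ++ s.b.flatMap fun v => [v.1, v.2]

section Red

variable (N : ℕ) (d : ℕ → ℕ)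

/-- the radius `R i` of the disks of the gadget `i` -/
def rad (i : ℕ) : ℚ := ((N : ℚ) + (d i : ℚ) / N) / 2

/-- the radius of the link disk between the gadgets `i` and `i + 1` -/
def lrad (i : ℕ) : ℚ := (5 * (N : ℚ) + rad N d i + rad N d (i + 1)) / 6

/-- the link disk between the gadgets `i` and `i + 1` -/
def link (i : ℕ) : Disk where
  x := 3 * (N : ℚ) * (i + 1 / 2) + (rad N d (i + 1) - rad N d i) / 10
  y := 4 / 5 * lrad N d i
  r := lrad N d i

/-- the left disk of the gadget `i` -/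
def left (i : ℕ) : Disk where
  x := 3 * (N : ℚ) * i - (N - rad N d i)
  y := -(3 / 5 * rad N d i)
  r := rad N d i

/-- the right disk of the gadget `i` -/
def right (i : ℕ) : Disk where
  x := 3 * (N : ℚ) * i + (N - rad N d i)
  y := -(3 / 5 * rad N d i)
  r := rad N d i

/-- the vertices of the square `[-1, 1] ^ 2` -/
def square : List (ℚ × ℚ) := [(-1, -1), (-1, 1), (1, -1), (1, 1)]

/-- the sum of the radii of the gadgets `1, …, n` -/
def rsum (n : ℕ) : ℚ := ∑ i ∈ Finset.range n, rad N d (i + 1)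

/-- The instance for the question `√(d 1) + ⋯ + √(d n) ≤ K`. -/
def inst (n K : ℕ) : Inst where
  f := [⟨⟨3 / 2 * (N : ℚ), 0, 1⟩, -2, 0⟩,
    ⟨⟨3 * (N : ℚ) * n + 3 / 2 * (N : ℚ), 0, 1⟩,
      3 * (N : ℚ) * n - 2 + 6 / 5 * rsum N d n - 2 * K, 3 * (N : ℚ) * n + 6 / 5 * rsum N d n⟩]
  g := ((List.range (n + 1)).map fun i => ⟨link N d i, square⟩) ++
    ((List.range n).map fun i => ⟨left N d (i + 1), square⟩) ++
    (List.range n).map fun i => ⟨right N d (i + 1), square⟩

end Red

end Pool.Agent.SSR75
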