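import Pool.Agent.SSR75.Nec

/-!
# The instances are valid
-/

set_option autoImplicit false

noncomputable section

namespace Pool.Agent.SSR75

variable {N : ℕ} {d : ℕ → ℕ}

theorem valid_inst (hN : 12 ≤ N) (n K : ℕ) : (inst N d n K).Valid := by
  have hN' : (12 : ℝ) ≤ N := by exact_mod_cast hN
  have hr : ∀ i, 0 < rad N d i := by
    intro i
    have h1 := rad_ge (d := d) hN i
    have h2 : (0 : ℝ) < rR N d i := by linarith
    unfold rR at h2
    exact_mod_cast h2
  have hl : ∀ i, 0 < lrad N d i := by
    intro i
    unfold lrad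
    have h1 := hr i
    have h2 := hr (i + 1)
    have h3 : (0 : ℚ) ≤ N := Nat.cast_nonneg _
    linarith
  refine ⟨?_, ?_, ?_, ?_⟩
  · intro s hs
    simp only [inst, List.mem_cons, List.not_mem_nil, or_false] at hs
    have hK : (0 : ℚ) ≤ K := Nat.cast_nonneg _
    rcases hs with rfl | rfl
    · norm_num
    · constructor
      · norm_num
      · simp only
        linarith
  · intro s hs
    simp only [inst, List.mem_append, List.mem_map, List.mem_range] at hs
    rcases hs with (⟨i, -, rfl⟩ | ⟨i, -, rfl⟩) | ⟨i, -, rfl⟩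
    · exact ⟨hl i, by simp [square]⟩
    · exact ⟨hr (i + 1), by simp [square]⟩
    · exact ⟨hr (i + 1), by simp [square]⟩
  · intro z
    by_cases h1 : z ∈ (⟨3 / 2 * (N : ℚ), 0, 1⟩ : Disk).set
    · refine ⟨0, fun s hs hz => ?_⟩
      simp only [inst, List.mem_cons, List.not_mem_nil, or_false] at hs
      rcases hs with rfl | rfl
      · constructor <;> norm_num
      · simp only at hz ⊢
        unfold Disk.set at h1 hz
        simp only [Set.mem_ofPred_eq] at h1 hz
        push_cast at h1 hz
        have e1 : |z.1 - 3 / 2 * (N : ℝ)| < 1 := by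
          apply abs_lt_of_sq_lt_sq _ (by norm_num)
          nlinarith [sq_nonneg z.2]
        have e2 : |z.1 - (3 * (N : ℝ) * n + 3 / 2 * (N : ℝ))| < 1 := by
          apply abs_lt_of_sq_lt_sq _ (by norm_num)
          nlinarith [sq_nonneg z.2]
        rw [abs_lt] at e1 e2
        have hn : n = 0 := by
          by_contra hc
          have h3 : (1 : ℝ) ≤ n := by exact_mod_cast Nat.one_le_iff_ne_zero.2 hc
          nlinarith [e1.2, e2.1]
        subst hn
        unfold rsum
        have hK : (0 : ℝ) ≤ K := Nat.cast_nonneg _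
        simp only [Finset.range_zero, Finset.sum_empty]
        push_cast
        constructor <;> linarith
    · refine ⟨((3 * (N : ℚ) * n - 2 + 6 / 5 * rsum N d n - 2 * K : ℚ) : ℝ), fun s hs hz => ?_⟩
      simp only [inst, List.mem_cons, List.not_mem_nil, or_false] at hs
      rcases hs with rfl | rfl
      · exact absurd hz h1
      · refine ⟨le_rfl, ?_⟩
        have hK : (0 : ℚ) ≤ K := Nat.cast_nonneg _
        have h2 : 3 * (N : ℚ) * n - 2 + 6 / 5 * rsum N d n - 2 * K ≤
            3 * (N : ℚ) * n + 6 / 5 * rsum N d n := by linarith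
        exact_mod_cast h2
  · intro z
    refine ⟨(0, 0), fun s hs _ => ?_⟩
    rw [poly_mem hs]
    constructor <;> constructor <;> norm_num

theorem length_g (n K : ℕ) : (inst N d n K).g.length = 3 * n + 1 := by
  simp only [inst, List.length_append, List.length_map, List.length_range]
  ring

theorem square_g (n K : ℕ) : ∀ s ∈ (inst N d n K).g, s.b = [(-1, -1), (-1, 1), (1, -1), (1, 1)] := by
  intro s hs
  simp only [inst, List.mem_append, List.mem_map, List.mem_range] at hs
  rcases hs with (⟨i, -, rfl⟩ | ⟨i, -, rfl⟩) | ⟨i, -, rfl⟩ <;> rfl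

end Pool.Agent.SSR75
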