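import Pool.Agent.SSR75.Defs

/-!
# The geometry of the disks
-/

set_option autoImplicit false

noncomputable section

namespace Pool.Agent.SSR75

variable {N : ℕ} {d : ℕ → ℕ}

/-- the radius as a real number -/
def rR (N : ℕ) (d : ℕ → ℕ) (i : ℕ) : ℝ := ((rad N d i : ℚ) : ℝ)

def lR (N : ℕ) (d : ℕ → ℕ) (i : ℕ) : ℝ := (5 * (N : ℝ) + rR N d i + rR N d (i + 1)) / 6

theorem rad_eq (hN : 12 ≤ N) (i : ℕ) : 2 * (N : ℝ) * rR N d i = (N : ℝ) ^ 2 + d i := by
  have h : (N : ℝ) ≠ 0 := by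
    have : 0 < N := by omega
    exact_mod_cast this.ne'
  unfold rR rad
  push_cast
  field_simp

theorem rad_ge (hN : 12 ≤ N) (i : ℕ) : (N : ℝ) / 2 ≤ rR N d i := by
  have h := rad_eq (d := d) hN i
  have h1 : (12 : ℝ) ≤ N := by exact_mod_cast hN
  have h2 : (0 : ℝ) ≤ d i := Nat.cast_nonneg _
  nlinarith

theorem rad_le (hN : 12 ≤ N) (hd : ∀ i, d i ≤ N) (i : ℕ) : rR N d i ≤ ((N : ℝ) + 1) / 2 := by
  have h := rad_eq (d := d) hN i
  have h1 : (12 : ℝ) ≤ N := by exact_mod_cast hN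
  have h2 : (d i : ℝ) ≤ N := by exact_mod_cast hd i
  nlinarith

theorem lR_cast (i : ℕ) : ((lrad N d i : ℚ) : ℝ) = lR N d i := by
  unfold lrad lR rR
  push_cast
  ring

theorem mem_link {i : ℕ} {z : ℝ × ℝ} : z ∈ (link N d i).set ↔
    (z.1 - (3 * (N : ℝ) * (i + 1 / 2) + (rR N d (i + 1) - rR N d i) / 10)) ^ 2 +
      (z.2 - 4 / 5 * lR N d i) ^ 2 < lR N d i ^ 2 := by
  rw [← lR_cast]
  unfold Disk.set link rR
  simp only [Set.mem_ofPred_eq]
  push_cast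
  rfl

theorem mem_left {i : ℕ} {z : ℝ × ℝ} : z ∈ (left N d i).set ↔
    (z.1 - (3 * (N : ℝ) * i - (N - rR N d i))) ^ 2 + (z.2 + 3 / 5 * rR N d i) ^ 2 <
      rR N d i ^ 2 := by
  unfold Disk.set left rR
  simp only [Set.mem_ofPred_eq]
  push_cast
  rw [sub_neg_eq_add]

theorem mem_right {i : ℕ} {z : ℝ × ℝ} : z ∈ (right N d i).set ↔
    (z.1 - (3 * (N : ℝ) * i + (N - rR N d i))) ^ 2 + (z.2 + 3 / 5 * rR N d i) ^ 2 <
      rR N d i ^ 2 := by
  unfold Disk.set right rR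
  simp only [Set.mem_ofPred_eq]
  push_cast
  rw [sub_neg_eq_add]

private theorem abs_x {x c y r : ℝ} (hr : 0 ≤ r) (h : (x - c) ^ 2 + y ^ 2 < r ^ 2) :
    c - r < x ∧ x < c + r := by
  have h1 : (x - c) ^ 2 < r ^ 2 := by nlinarith [sq_nonneg y]
  have h2 := abs_lt_of_sq_lt_sq' h1 hr
  constructor <;> linarith [h2.1, h2.2]

theorem link_x (hN : 12 ≤ N) (hd : ∀ i, d i ≤ N) {i : ℕ} {z : ℝ × ℝ}
    (h : z ∈ (link N d i).set) : 3 * (N : ℝ) * i + 1 < z.1 ∧ z.1 < 3 * (N : ℝ) * (i + 1) - 1 := by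
  have h1 : (12 : ℝ) ≤ N := by exact_mod_cast hN
  have a1 := rad_ge (d := d) hN i
  have a2 := rad_ge (d := d) hN (i + 1)
  have b1 := rad_le hN hd i
  have b2 := rad_le hN hd (i + 1)
  have h2 := abs_x (by unfold lR; linarith) (mem_link.1 h)
  unfold lR at h2
  constructor <;> linarith [h2.1, h2.2]

theorem left_x (hN : 12 ≤ N) (hd : ∀ i, d i ≤ N) {i : ℕ} {z : ℝ × ℝ}
    (h : z ∈ (left N d i).set) : 3 * (N : ℝ) * i - N < z.1 ∧ z.1 < 3 * (N : ℝ) * i + 1 := by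
  have h1 : (12 : ℝ) ≤ N := by exact_mod_cast hN
  have a1 := rad_ge (d := d) hN i
  have b1 := rad_le hN hd i
  have h2 := abs_x (by linarith) (mem_left.1 h)
  constructor <;> linarith [h2.1, h2.2]

theorem right_x (hN : 12 ≤ N) (hd : ∀ i, d i ≤ N) {i : ℕ} {z : ℝ × ℝ}
    (h : z ∈ (right N d i).set) : 3 * (N : ℝ) * i - 1 < z.1 ∧ z.1 < 3 * (N : ℝ) * i + N := by
  have h1 : (12 : ℝ) ≤ N := by exact_mod_cast hN
  have a1 := rad_ge (d := d) hN i
  have b1 := rad_le hN hd i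
  have h2 := abs_x (by linarith) (mem_right.1 h)
  constructor <;> linarith [h2.1, h2.2]

/-- the height of the door of the gadget `i` -/
def vv (N : ℕ) (d : ℕ → ℕ) (i : ℕ) : ℝ := √(d i) - 3 / 5 * rR N d i

theorem vv_neg (hN : 12 ≤ N) (hd : ∀ i, d i ≤ N) (i : ℕ) : vv N d i < 0 := by
  have h1 : (12 : ℝ) ≤ N := by exact_mod_cast hN
  have a1 := rad_ge (d := d) hN i
  have h2 : (d i : ℝ) ≤ N := by exact_mod_cast hd i
  have h3 : √(d i : ℝ) < 3 / 10 * N := by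
    rw [Real.sqrt_lt' (by linarith)]
    nlinarith
  unfold vv
  linarith

/-- the intersection of the two disks of a gadget is below the height `vv` -/
theorem door (hN : 12 ≤ N) {i : ℕ} {z : ℝ × ℝ} (h : z ∈ (left N d i).set)
    (h' : z ∈ (right N d i).set) : z.2 < vv N d i := by
  have h1 := mem_left.1 h
  have h2 := mem_right.1 h'
  have h3 := rad_eq (d := d) hN i
  have h4 : (z.2 + 3 / 5 * rR N d i) ^ 2 < d i := by nlinarith [sq_nonneg (z.1 - 3 * (N : ℝ) * i)]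
  have h5 := Real.lt_sqrt_of_sq_lt h4
  unfold vv
  linarith

theorem low_left (hN : 12 ≤ N) {i : ℕ} {z : ℝ × ℝ} (h : z ∈ (link N d i).set)
    (h' : z ∈ (left N d (i + 1)).set) : 0 < z.2 := by
  have hN' : (12 : ℝ) ≤ N := by exact_mod_cast hN
  have a1 := rad_ge (d := d) hN i
  have a2 := rad_ge (d := d) hN (i + 1)
  have h1 := mem_link.1 h
  have h2 := mem_left.1 h'
  push_cast at h2
  have hl : 0 < lR N d i := by unfold lR; linarith
  have hr : 0 < rR N d (i + 1) := by linarith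
  obtain ⟨w, hw⟩ : ∃ w, w = z.1 - (3 * (N : ℝ) * (i + 1) - N + rR N d (i + 1) / 5) := ⟨_, rfl⟩
  have e1 : z.1 - (3 * (N : ℝ) * (i + 1 / 2) + (rR N d (i + 1) - rR N d i) / 10) =
      w + 3 / 5 * lR N d i := by
    rw [hw]
    unfold lR
    ring
  have e2 : z.1 - (3 * (N : ℝ) * (i + 1) - (N - rR N d (i + 1))) =
      w - 4 / 5 * rR N d (i + 1) := by
    rw [hw]
    ring
  rw [e1] at h1
  rw [e2] at h2
  have g1 : 3 * w < 4 * z.2 := by
    by_contra hc
    push Not at hc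
    nlinarith [sq_nonneg w, sq_nonneg z.2]
  have g2 : 3 * z.2 < 4 * w := by
    by_contra hc
    push Not at hc
    nlinarith [sq_nonneg w, sq_nonneg z.2]
  linarith

theorem low_right (hN : 12 ≤ N) {i : ℕ} {z : ℝ × ℝ} (h : z ∈ (link N d i).set)
    (h' : z ∈ (right N d i).set) : 0 < z.2 := by
  have hN' : (12 : ℝ) ≤ N := by exact_mod_cast hN
  have a1 := rad_ge (d := d) hN i
  have a2 := rad_ge (d := d) hN (i + 1)
  have h1 := mem_link.1 h
  have h2 := mem_right.1 h'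
  have hl : 0 < lR N d i := by unfold lR; linarith
  have hr : 0 < rR N d i := by linarith
  obtain ⟨w, hw⟩ : ∃ w, w = (3 * (N : ℝ) * i + N - rR N d i / 5) - z.1 := ⟨_, rfl⟩
  have e1 : z.1 - (3 * (N : ℝ) * (i + 1 / 2) + (rR N d (i + 1) - rR N d i) / 10) =
      -(w + 3 / 5 * lR N d i) := by
    rw [hw]
    unfold lR
    ring
  have e2 : z.1 - (3 * (N : ℝ) * i + (N - rR N d i)) = -(w - 4 / 5 * rR N d i) := by
    rw [hw]
    ring
  rw [e1, neg_sq] at h1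
  rw [e2, neg_sq] at h2
  have g1 : 3 * w < 4 * z.2 := by
    by_contra hc
    push Not at hc
    nlinarith [sq_nonneg w, sq_nonneg z.2]
  have g2 : 3 * z.2 < 4 * w := by
    by_contra hc
    push Not at hc
    nlinarith [sq_nonneg w, sq_nonneg z.2]
  linarith

end Pool.Agent.SSR75
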