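import Pool.Agent.SSR75.Suf

/-!
# If the instance is consistent then the sum of the square roots is small
-/

set_option autoImplicit false

noncomputable section

namespace Pool.Agent.SSR75

variable {N : ℕ} {d : ℕ → ℕ}

theorem link_mem (n K i : ℕ) (hi : i ≤ n) : (⟨link N d i, square⟩ : DStep) ∈ (inst N d n K).g := by
  simp only [inst, List.mem_append, List.mem_map, List.mem_range]
  exact Or.inl (Or.inl ⟨i, by omega, rfl⟩)

theorem left_mem (n K i : ℕ) (hi : i < n) :
    (⟨left N d (i + 1), square⟩ : DStep) ∈ (inst N d n K).g := by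
  simp only [inst, List.mem_append, List.mem_map, List.mem_range]
  exact Or.inl (Or.inr ⟨i, hi, rfl⟩)

theorem right_mem (n K i : ℕ) (hi : i < n) :
    (⟨right N d (i + 1), square⟩ : DStep) ∈ (inst N d n K).g := by
  simp only [inst, List.mem_append, List.mem_map, List.mem_range]
  exact Or.inr ⟨i, hi, rfl⟩

/-- the point near the contact of the link `i` and the left disk of the gadget `i + 1` -/
theorem ql_link (hN : 12 ≤ N) (i : ℕ) {ε : ℝ} (h0 : 0 < ε) (h1 : ε < 1 / 2) :
    ((3 * (N : ℝ) * (i + 1) - N + rR N d (i + 1) / 5 + ε, ε) : ℝ × ℝ) ∈ (link N d i).set := by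
  have hN' : (12 : ℝ) ≤ N := by exact_mod_cast hN
  have a1 := rad_ge (d := d) hN i
  have a2 := rad_ge (d := d) hN (i + 1)
  rw [mem_link]
  have hl : 6 ≤ lR N d i := by unfold lR; linarith
  have e1 : 3 * (N : ℝ) * (i + 1) - N + rR N d (i + 1) / 5 + ε -
      (3 * (N : ℝ) * (i + 1 / 2) + (rR N d (i + 1) - rR N d i) / 10) = ε + 3 / 5 * lR N d i := by
    unfold lR
    ring
  simp only
  rw [e1]
  nlinarith

theorem ql_left (hN : 12 ≤ N) (i : ℕ) {ε : ℝ} (h0 : 0 < ε) (h1 : ε < 1 / 2) :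
    ((3 * (N : ℝ) * (i + 1) - N + rR N d (i + 1) / 5 + ε, ε) : ℝ × ℝ) ∈
      (left N d (i + 1)).set := by
  have hN' : (12 : ℝ) ≤ N := by exact_mod_cast hN
  have a2 := rad_ge (d := d) hN (i + 1)
  rw [mem_left]
  push_cast
  have e1 : 3 * (N : ℝ) * (i + 1) - N + rR N d (i + 1) / 5 + ε -
      (3 * (N : ℝ) * (i + 1) - (N - rR N d (i + 1))) = ε - 4 / 5 * rR N d (i + 1) := by
    ring
  rw [e1]
  nlinarith

theorem qr_link (hN : 12 ≤ N) (i : ℕ) {ε : ℝ} (h0 : 0 < ε) (h1 : ε < 1 / 2) :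
    ((3 * (N : ℝ) * i + N - rR N d i / 5 - ε, ε) : ℝ × ℝ) ∈ (link N d i).set := by
  have hN' : (12 : ℝ) ≤ N := by exact_mod_cast hN
  have a1 := rad_ge (d := d) hN i
  have a2 := rad_ge (d := d) hN (i + 1)
  rw [mem_link]
  have hl : 6 ≤ lR N d i := by unfold lR; linarith
  have e1 : 3 * (N : ℝ) * i + N - rR N d i / 5 - ε -
      (3 * (N : ℝ) * (i + 1 / 2) + (rR N d (i + 1) - rR N d i) / 10) =
      -(ε + 3 / 5 * lR N d i) := by
    unfold lR
    ring
  simp only
  rw [e1]
  nlinarith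

theorem qr_right (hN : 12 ≤ N) (i : ℕ) {ε : ℝ} (h0 : 0 < ε) (h1 : ε < 1 / 2) :
    ((3 * (N : ℝ) * i + N - rR N d i / 5 - ε, ε) : ℝ × ℝ) ∈ (right N d i).set := by
  have hN' : (12 : ℝ) ≤ N := by exact_mod_cast hN
  have a2 := rad_ge (d := d) hN i
  rw [mem_right]
  have e1 : 3 * (N : ℝ) * i + N - rR N d i / 5 - ε - (3 * (N : ℝ) * i + (N - rR N d i)) =
      -(ε - 4 / 5 * rR N d i) := by
    ring
  simp only
  rw [e1]
  nlinarith

theorem tp_mem (hN : 12 ≤ N) (i : ℕ) (hi : 0 < d i) {ε : ℝ} (h0 : 0 < ε) (h1 : ε < 1 / 2) :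
    ((3 * (N : ℝ) * i, vv N d i - ε) : ℝ × ℝ) ∈ (left N d i).set ∧
      ((3 * (N : ℝ) * i, vv N d i - ε) : ℝ × ℝ) ∈ (right N d i).set := by
  have h3 := rad_eq (d := d) hN i
  have hd : (1 : ℝ) ≤ d i := by exact_mod_cast hi
  have h4 : (1 : ℝ) ≤ √(d i) := Real.one_le_sqrt.2 hd
  have h5 : √(d i : ℝ) ^ 2 = d i := Real.sq_sqrt (by linarith)
  have e1 : vv N d i - ε + 3 / 5 * rR N d i = √(d i) - ε := by
    unfold vv
    ring
  rw [mem_left, mem_right]
  simp only
  rw [e1]
  constructor <;> nlinarith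

theorem le_of_consistent (hN : 12 ≤ N) (hd : ∀ i, d i ≤ N) {n K : ℕ}
    (hpos : ∀ i, i < n → 0 < d (i + 1)) (h : (inst N d n K).Consistent) :
    ∑ j ∈ Finset.range n, √(d (j + 1) : ℝ) ≤ K := by
  have hN' : (12 : ℝ) ≤ N := by exact_mod_cast hN
  obtain ⟨h, -, hf, hg⟩ := h
  rcases Nat.eq_zero_or_pos n with hn | hn
  · subst hn
    simp
  have lip : ∀ s ∈ (inst N d n K).g, ∀ x ∈ s.c.set, ∀ y ∈ s.c.set,
      h x ≤ h y + |x.1 - y.1| + |x.2 - y.2| := by
    intro s hs x hx y hy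
    obtain ⟨w, hw, hxy⟩ := hg s hs x hx y hy
    rw [poly_mem hs] at hw
    obtain ⟨⟨w1, w2⟩, ⟨w3, w4⟩⟩ := hw
    have b1 : w.1 * (x.1 - y.1) ≤ |x.1 - y.1| := by
      refine (le_abs_self _).trans ?_
      rw [abs_mul]
      exact mul_le_of_le_one_left (abs_nonneg _) (abs_le.2 ⟨w1, w2⟩)
    have b2 : w.2 * (x.2 - y.2) ≤ |x.2 - y.2| := by
      refine (le_abs_self _).trans ?_
      rw [abs_mul]
      exact mul_le_of_le_one_left (abs_nonneg _) (abs_le.2 ⟨w3, w4⟩)
    linarith
  -- the inequality for every small number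
  have key : ∀ ε : ℝ, 0 < ε → ε < 1 / 2 →
      2 * (∑ j ∈ Finset.range n, √(d (j + 1) : ℝ)) - 2 * K ≤ (20 * n + 3) * ε := by
    intro ε h0 h1
    have chain : ∀ i, i ≤ n → ∃ y : ℝ × ℝ, y ∈ (link N d i).set ∧
        h y ≤ y.1 + TT N d i + (20 * i + 1) * ε ∧ |y.2| ≤ ε ∧
        y.1 ≤ 3 * (N : ℝ) * i + 3 / 2 * N + 1 ∧ (1 ≤ i → y.1 ≤ 3 * (N : ℝ) * i + N) := by
      intro i
      induction i with
      | zero =>
        intro _
        have a1 := rad_ge (d := d) hN 0
        have a2 := rad_ge (d := d) hN 1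
        have b1 := rad_le hN hd 0
        have b2 := rad_le hN hd 1
        have hz : ((3 / 2 * (N : ℝ) + 1 - ε, 0) : ℝ × ℝ) ∈ (link N d 0).set := by
          rw [mem_link]
          have hl : 6 ≤ lR N d 0 := by unfold lR; linarith
          simp only [Nat.cast_zero, zero_add] at a1 a2 b1 b2 ⊢
          have e1 : |3 / 2 * (N : ℝ) + 1 - ε -
              (3 * (N : ℝ) * (1 / 2) + (rR N d 1 - rR N d 0) / 10)| < 3 := by
            rw [abs_lt]
            constructor <;> linarith
          have e2 := sq_lt_sq' (abs_lt.1 e1).1 (abs_lt.1 e1).2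
          nlinarith
        refine ⟨_, hz, ?_, by simpa using h0.le, by
          simp only [Nat.cast_zero, mul_zero, zero_add]; linarith, fun hc => by omega⟩
        have h3 := (hf ⟨⟨3 / 2 * (N : ℚ), 0, 1⟩, -2, 0⟩ (by simp [inst])
          (3 / 2 * (N : ℝ) + 1 - ε, 0) ⟨by
            unfold Disk.set
            simp only [Set.mem_ofPred_eq]
            push_cast
            have : 3 / 2 * (N : ℝ) + 1 - ε - 3 / 2 * N = 1 - ε := by ring
            rw [this]
            nlinarith, ⟨_, link_mem n K 0 (Nat.zero_le _), hz⟩⟩).2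
        push_cast at h3
        refine h3.trans ?_
        unfold TT
        simp only [Nat.cast_zero, Finset.range_zero, Finset.sum_empty]
        linarith
      | succ i ih =>
        intro hi
        obtain ⟨y, hy, hy1, hy2, hy3, -⟩ := ih (by omega)
        have hin : i < n := by omega
        have a2 := rad_ge (d := d) hN (i + 1)
        have b2 := rad_le hN hd (i + 1)
        have hv := vv_neg hN hd (i + 1)
        obtain ⟨t1, t2⟩ := tp_mem hN (i + 1) (hpos i hin) h0 h1
        have q1 := lip _ (link_mem n K i (by omega)) _ (ql_link (d := d) hN i h0 h1) y hy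
        have q2 := lip _ (left_mem n K i hin) _ t1 _ (ql_left (d := d) hN i h0 h1)
        have q3 := lip _ (right_mem n K i hin) _ (qr_right (d := d) hN (i + 1) h0 h1) _ t2
        refine ⟨_, qr_link (d := d) hN (i + 1) h0 h1, ?_, by simp [abs_of_pos h0], ?_, fun _ => ?_⟩
        · simp only at q1 q2 q3
          push_cast at q1 q2 q3 ⊢
          rw [TT_succ]
          have c1 : |3 * (N : ℝ) * (i + 1) - N + rR N d (i + 1) / 5 + ε - y.1| =
              3 * (N : ℝ) * (i + 1) - N + rR N d (i + 1) / 5 + ε - y.1 := by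
            apply abs_of_nonneg
            linarith
          have c2 : |ε - y.2| ≤ 2 * ε := by
            have := abs_sub ε y.2
            rw [abs_of_pos h0] at this
            linarith
          have c3 : |3 * (N : ℝ) * (i + 1) -
              (3 * (N : ℝ) * (i + 1) - N + rR N d (i + 1) / 5 + ε)| =
              N - rR N d (i + 1) / 5 - ε := by
            rw [abs_of_nonneg] <;> linarith
          have c4 : |vv N d (i + 1) - ε - ε| = 2 * ε - vv N d (i + 1) := by
            rw [abs_of_nonpos] <;> linarith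
          have c5 : |3 * (N : ℝ) * (i + 1) + N - rR N d (i + 1) / 5 - ε - 3 * (N : ℝ) * (i + 1)| =
              N - rR N d (i + 1) / 5 - ε := by
            rw [abs_of_nonneg] <;> linarith
          have c6 : |ε - (vv N d (i + 1) - ε)| = 2 * ε - vv N d (i + 1) := by
            rw [abs_of_nonneg] <;> linarith
          rw [c1] at q1
          rw [c3, c4] at q2
          rw [c5, c6] at q3
          linarith
        · push_cast
          linarith
        · push_cast
          linarith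
    obtain ⟨y, hy, hy1, hy2, -, hy3⟩ := chain n le_rfl
    have hy3 := hy3 hn
    have a1 := rad_ge (d := d) hN n
    have a2 := rad_ge (d := d) hN (n + 1)
    have b1 := rad_le hN hd n
    have b2 := rad_le hN hd (n + 1)
    have hz : ((3 * (N : ℝ) * n + 3 / 2 * (N : ℝ) - 1 + ε, 0) : ℝ × ℝ) ∈ (link N d n).set := by
      rw [mem_link]
      have hl : 6 ≤ lR N d n := by unfold lR; linarith
      simp only
      have e1 : |3 * (N : ℝ) * n + 3 / 2 * (N : ℝ) - 1 + ε -
          (3 * (N : ℝ) * (n + 1 / 2) + (rR N d (n + 1) - rR N d n) / 10)| < 3 := by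
        rw [abs_lt]
        constructor <;> linarith
      have e2 := sq_lt_sq' (abs_lt.1 e1).1 (abs_lt.1 e1).2
      nlinarith
    have h3 := (hf ⟨⟨3 * (N : ℚ) * n + 3 / 2 * (N : ℚ), 0, 1⟩,
      3 * (N : ℚ) * n - 2 + 6 / 5 * rsum N d n - 2 * K, 3 * (N : ℚ) * n + 6 / 5 * rsum N d n⟩
      (by simp [inst]) (3 * (N : ℝ) * n + 3 / 2 * (N : ℝ) - 1 + ε, 0) ⟨by
        unfold Disk.set
        simp only [Set.mem_ofPred_eq]
        push_cast
        have : 3 * (N : ℝ) * n + 3 / 2 * (N : ℝ) - 1 + ε - (3 * (N : ℝ) * n + 3 / 2 * N) =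
          ε - 1 := by ring
        rw [this]
        nlinarith, ⟨_, link_mem n K n le_rfl, hz⟩⟩).1
    push_cast at h3
    have q := lip _ (link_mem n K n le_rfl) _ hz y hy
    simp only at q
    have c1 : |3 * (N : ℝ) * n + 3 / 2 * (N : ℝ) - 1 + ε - y.1| =
        3 * (N : ℝ) * n + 3 / 2 * (N : ℝ) - 1 + ε - y.1 := by
      apply abs_of_nonneg
      linarith
    have c2 : |0 - y.2| ≤ ε := by
      rw [zero_sub, abs_neg]
      exact hy2
    rw [c1] at q
    have e3 : TT N d n = -(3 / 2 * (N : ℝ)) - 1 - 2 * (∑ j ∈ Finset.range n, √(d (j + 1) : ℝ) -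
        3 / 5 * ((rsum N d n : ℚ) : ℝ)) := by
      unfold TT
      rw [vsum]
    rw [e3] at hy1
    linarith
  by_contra hc
  push Not at hc
  have hn0 : (0 : ℝ) ≤ n := Nat.cast_nonneg _
  obtain ⟨δ, hδ⟩ : ∃ δ, δ = ∑ j ∈ Finset.range n, √(d (j + 1) : ℝ) - K := ⟨_, rfl⟩
  have hδ0 : 0 < δ := by rw [hδ]; linarith
  have k1 := key (min (1 / 4) (δ / (20 * n + 3))) (lt_min (by norm_num) (by positivity))
    ((min_le_left _ _).trans_lt (by norm_num))
  have k2 : (20 * (n : ℝ) + 3) * min (1 / 4) (δ / (20 * n + 3)) ≤ δ := by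
    calc (20 * (n : ℝ) + 3) * min (1 / 4) (δ / (20 * n + 3)) ≤
        (20 * (n : ℝ) + 3) * (δ / (20 * n + 3)) :=
          mul_le_mul_of_nonneg_left (min_le_right _ _) (by positivity)
      _ = δ := by field_simp
  linarith

end Pool.Agent.SSR75
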