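import Pool.Agent.SSR75.Geo

/-!
# If the sum of the square roots is small then the instance is consistent
-/

set_option autoImplicit false

noncomputable section

namespace Pool.Agent.SSR75

open scoped Classical

variable {N : ℕ} {d : ℕ → ℕ}

private theorem hull_pm : convexHull ℝ ({-1, 1} : Set ℝ) = Set.Icc (-1) 1 := by
  rw [convexHull_pair, segment_eq_Icc (by norm_num)]

theorem poly_square (c : Disk) : (⟨c, square⟩ : DStep).poly = Set.Icc (-1) 1 ×ˢ Set.Icc (-1) 1 := by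
  unfold DStep.poly
  have h1 : {w : ℝ × ℝ | ∃ v ∈ (⟨c, square⟩ : DStep).b, w = ((v.1 : ℝ), (v.2 : ℝ))} =
      ({-1, 1} : Set ℝ) ×ˢ ({-1, 1} : Set ℝ) := by
    ext w
    rcases w with ⟨w1, w2⟩
    simp only [square, List.mem_cons, List.not_mem_nil, or_false, Set.mem_ofPred_eq,
      Set.mem_prod, Set.mem_insert_iff, Set.mem_singleton_iff]
    constructor
    · rintro ⟨v, (rfl | rfl | rfl | rfl), h⟩ <;> simp_all
    · rintro ⟨(h1 | h1), (h2 | h2)⟩
      · exact ⟨_, Or.inl rfl, by simp [h1, h2]⟩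
      · exact ⟨_, Or.inr (Or.inl rfl), by simp [h1, h2]⟩
      · exact ⟨_, Or.inr (Or.inr (Or.inl rfl)), by simp [h1, h2]⟩
      · exact ⟨_, Or.inr (Or.inr (Or.inr rfl)), by simp [h1, h2]⟩
  rw [h1, convexHull_prod, hull_pm]

/-- a bound gives a gradient in the square -/
theorem exists_grad {t a b : ℝ} (h : |t| ≤ |a| + |b|) :
    ∃ w : ℝ × ℝ, w ∈ Set.Icc (-1 : ℝ) 1 ×ˢ Set.Icc (-1 : ℝ) 1 ∧ t = w.1 * a + w.2 * b := by
  by_cases h0 : |a| + |b| = 0
  · have ha : a = 0 := abs_eq_zero.1 (by linarith [abs_nonneg a, abs_nonneg b])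
    have hb : b = 0 := abs_eq_zero.1 (by linarith [abs_nonneg a, abs_nonneg b])
    have ht : t = 0 := abs_eq_zero.1 (le_antisymm (by rwa [h0] at h) (abs_nonneg t))
    exact ⟨(0, 0), by simp, by rw [ha, hb, ht]; simp⟩
  · have hp : 0 < |a| + |b| := lt_of_le_of_ne (by positivity) (Ne.symm h0)
    have hs : ∀ x : ℝ, SignType.sign x * x = |x| := fun x => by
      exact_mod_cast sign_mul_self x
    have hs1 : ∀ x : ℝ, |((SignType.sign x : SignType) : ℝ)| ≤ 1 := by
      intro x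
      rcases lt_trichotomy x 0 with h | h | h
      · rw [sign_neg h]; simp
      · rw [h, sign_zero]; simp
      · rw [sign_pos h]; simp
    have hq : |t / (|a| + |b|)| ≤ 1 := by
      rw [abs_div, abs_of_pos hp]
      exact (div_le_one hp).2 h
    refine ⟨(t / (|a| + |b|) * SignType.sign a, t / (|a| + |b|) * SignType.sign b), ?_, ?_⟩
    · have h2 : ∀ x : ℝ, |t / (|a| + |b|) * ((SignType.sign x : SignType) : ℝ)| ≤ 1 := by
        intro x
        rw [abs_mul]
        exact mul_le_one₀ hq (abs_nonneg _) (hs1 x)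
      exact ⟨abs_le.1 (h2 a), abs_le.1 (h2 b)⟩
    · simp only
      rw [mul_assoc, mul_assoc, hs, hs, ← mul_add]
      field_simp

/-- `S i` -/
def TT (N : ℕ) (d : ℕ → ℕ) (i : ℕ) : ℝ :=
  -(3 / 2 * (N : ℝ)) - 1 - 2 * ∑ j ∈ Finset.range i, vv N d (j + 1)

theorem TT_succ (i : ℕ) : TT N d (i + 1) = TT N d i - 2 * vv N d (i + 1) := by
  unfold TT
  rw [Finset.sum_range_succ]
  ring

/-- the truncation to the interval from `v` to `0` -/
def cl (v y : ℝ) : ℝ := max v (min y 0)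

theorem cl_lip (v y y' : ℝ) : |cl v y - cl v y'| ≤ |y - y'| := by
  unfold cl
  have h1 := abs_max_sub_max_le_max v (min y 0) v (min y' 0)
  have h2 := abs_min_sub_min_le_max y 0 y' 0
  rw [sub_self, abs_zero] at h1 h2
  rw [max_eq_left (abs_nonneg _)] at h2
  exact h1.trans (max_le (abs_nonneg _) h2)

theorem cl_top {v y : ℝ} (hv : v ≤ 0) (hy : 0 ≤ y) : cl v y = 0 := by
  unfold cl
  rw [min_eq_right hy, max_eq_right hv]

theorem cl_bot {v y : ℝ} (hv : v ≤ 0) (hy : y ≤ v) : cl v y = v := by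
  unfold cl
  rw [min_eq_left (hy.trans hv), max_eq_left hy]

/-- the function -/
def hh (N : ℕ) (d : ℕ → ℕ) (z : ℝ × ℝ) : ℝ :=
  if z ∈ (link N d ⌊z.1 / (3 * N)⌋₊).set then z.1 + TT N d ⌊z.1 / (3 * N)⌋₊ else
    if z ∈ (left N d ⌊(z.1 + N) / (3 * N)⌋₊).set then
      z.1 + TT N d (⌊(z.1 + N) / (3 * N)⌋₊ - 1) - cl (vv N d ⌊(z.1 + N) / (3 * N)⌋₊) z.2 else
      z.1 + TT N d ⌊(z.1 + N) / (3 * N)⌋₊ + cl (vv N d ⌊(z.1 + N) / (3 * N)⌋₊) z.2

private theorem lt_of_mul {N a b : ℕ} (hN : 12 ≤ N) {x : ℝ} (h1 : 3 * (N : ℝ) * a < x)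
    (h2 : x < 3 * (N : ℝ) * (b + 1)) : a ≤ b := by
  have hN' : (12 : ℝ) ≤ N := by exact_mod_cast hN
  by_contra hc
  push Not at hc
  have h3 : (b : ℝ) + 1 ≤ a := by exact_mod_cast hc
  nlinarith

theorem hh_link (hN : 12 ≤ N) (hd : ∀ i, d i ≤ N) {i : ℕ} {z : ℝ × ℝ}
    (h : z ∈ (link N d i).set) : hh N d z = z.1 + TT N d i := by
  have hN' : (12 : ℝ) ≤ N := by exact_mod_cast hN
  have hx := link_x hN hd h
  have hf : ⌊z.1 / (3 * N)⌋₊ = i := by
    have h0 : (0 : ℝ) ≤ z.1 / (3 * N) := by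
      apply div_nonneg _ (by positivity)
      have : (0 : ℝ) ≤ 3 * (N : ℝ) * i := by positivity
      linarith [hx.1]
    rw [Nat.floor_eq_iff h0]
    constructor
    · rw [le_div_iff₀ (by positivity)]
      linarith [hx.1]
    · rw [div_lt_iff₀ (by positivity)]
      linarith [hx.2]
  unfold hh
  rw [hf, if_pos h]

private theorem floor_gadget (hN : 12 ≤ N) {i : ℕ} {x : ℝ} (h1 : 3 * (N : ℝ) * i - N < x)
    (h2 : x < 3 * (N : ℝ) * i + N) : ⌊(x + N) / (3 * N)⌋₊ = i := by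
  have hN' : (12 : ℝ) ≤ N := by exact_mod_cast hN
  have h0 : (0 : ℝ) ≤ (x + N) / (3 * N) := by
    apply div_nonneg _ (by positivity)
    have : (0 : ℝ) ≤ 3 * (N : ℝ) * i := by positivity
    linarith
  rw [Nat.floor_eq_iff h0]
  constructor
  · rw [le_div_iff₀ (by positivity)]
    linarith
  · rw [div_lt_iff₀ (by positivity)]
    linarith

theorem hh_left (hN : 12 ≤ N) (hd : ∀ i, d i ≤ N) {i : ℕ} {z : ℝ × ℝ}
    (h : z ∈ (left N d (i + 1)).set) :
    hh N d z = z.1 + TT N d i - cl (vv N d (i + 1)) z.2 := by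
  have hN' : (12 : ℝ) ≤ N := by exact_mod_cast hN
  have hx := left_x hN hd h
  push_cast at hx
  by_cases hl : z ∈ (link N d ⌊z.1 / (3 * N)⌋₊).set
  · generalize hj : ⌊z.1 / (3 * N)⌋₊ = j at hl
    have hy := link_x hN hd hl
    have e1 : i ≤ j := lt_of_mul hN (x := z.1) (by linarith) (by linarith [hy.2])
    have e2 : j ≤ i + 1 := lt_of_mul hN (x := z.1) (by linarith) (by push_cast; linarith [hx.2])
    have e3 : j = i := by
      rcases Nat.lt_or_ge j (i + 1) with h3 | h3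
      · omega
      · exfalso
        have h4 : (i : ℝ) + 1 ≤ j := by exact_mod_cast h3
        nlinarith [hy.1, hx.2]
    subst e3
    rw [hh_link hN hd hl, cl_top (vv_neg hN hd _).le (low_left hN hl h).le, sub_zero]
  · have hf : ⌊(z.1 + N) / (3 * N)⌋₊ = i + 1 := by
      apply floor_gadget hN <;> push_cast <;> linarith [hx.1, hx.2]
    unfold hh
    rw [if_neg hl, hf, if_pos h]
    rfl

theorem hh_right (hN : 12 ≤ N) (hd : ∀ i, d i ≤ N) {i : ℕ} {z : ℝ × ℝ}
    (h : z ∈ (right N d (i + 1)).set) :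
    hh N d z = z.1 + TT N d (i + 1) + cl (vv N d (i + 1)) z.2 := by
  have hN' : (12 : ℝ) ≤ N := by exact_mod_cast hN
  have hx := right_x hN hd h
  push_cast at hx
  by_cases hl : z ∈ (link N d ⌊z.1 / (3 * N)⌋₊).set
  · generalize hj : ⌊z.1 / (3 * N)⌋₊ = j at hl
    have hy := link_x hN hd hl
    have e2 : j ≤ i + 1 := lt_of_mul hN (x := z.1) (by linarith) (by push_cast; linarith [hx.2])
    have e3 : j = i + 1 := by
      rcases Nat.lt_or_ge i j with h3 | h3
      · omega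
      · exfalso
        have h4 : (j : ℝ) ≤ i := by exact_mod_cast h3
        nlinarith [hy.2, hx.1]
    subst e3
    rw [hh_link hN hd hl, cl_top (vv_neg hN hd _).le (low_right hN hl h).le, add_zero]
  · have hf : ⌊(z.1 + N) / (3 * N)⌋₊ = i + 1 := by
      apply floor_gadget hN <;> push_cast <;> linarith [hx.1, hx.2]
    by_cases h2 : z ∈ (left N d (i + 1)).set
    · rw [hh_left hN hd h2, TT_succ, cl_bot (vv_neg hN hd _).le (door hN h2 h).le]
      ring
    · unfold hh
      rw [if_neg hl, hf, if_neg h2]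

/-- the bound on each of the disks -/
theorem hh_lip (hN : 12 ≤ N) (hd : ∀ i, d i ≤ N) {n K : ℕ} {s : DStep}
    (hs : s ∈ (inst N d n K).g) {x y : ℝ × ℝ} (hx : x ∈ s.c.set) (hy : y ∈ s.c.set) :
    |hh N d x - hh N d y| ≤ |x.1 - y.1| + |x.2 - y.2| := by
  simp only [inst, List.mem_append, List.mem_map, List.mem_range] at hs
  rcases hs with (⟨i, -, rfl⟩ | ⟨i, -, rfl⟩) | ⟨i, -, rfl⟩
  · rw [hh_link hN hd hx, hh_link hN hd hy]
    have h1 : x.1 + TT N d i - (y.1 + TT N d i) = x.1 - y.1 := by ring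
    rw [h1]
    linarith [abs_nonneg (x.2 - y.2)]
  · rw [hh_left hN hd hx, hh_left hN hd hy]
    have h1 : x.1 + TT N d i - cl (vv N d (i + 1)) x.2 -
        (y.1 + TT N d i - cl (vv N d (i + 1)) y.2) =
        (x.1 - y.1) - (cl (vv N d (i + 1)) x.2 - cl (vv N d (i + 1)) y.2) := by ring
    rw [h1]
    exact (abs_sub _ _).trans (add_le_add le_rfl (cl_lip _ _ _))
  · rw [hh_right hN hd hx, hh_right hN hd hy]
    have h1 : x.1 + TT N d (i + 1) + cl (vv N d (i + 1)) x.2 -
        (y.1 + TT N d (i + 1) + cl (vv N d (i + 1)) y.2) =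
        (x.1 - y.1) + (cl (vv N d (i + 1)) x.2 - cl (vv N d (i + 1)) y.2) := by ring
    rw [h1]
    exact (abs_add_le _ _).trans (add_le_add le_rfl (cl_lip _ _ _))

theorem poly_mem {n K : ℕ} {s : DStep} (hs : s ∈ (inst N d n K).g) :
    s.poly = Set.Icc (-1) 1 ×ˢ Set.Icc (-1) 1 := by
  simp only [inst, List.mem_append, List.mem_map, List.mem_range] at hs
  rcases hs with (⟨i, -, rfl⟩ | ⟨i, -, rfl⟩) | ⟨i, -, rfl⟩ <;> exact poly_square _

theorem isOpen_disk (D : Disk) : IsOpen D.set := by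
  unfold Disk.set
  exact isOpen_lt (by fun_prop) (by fun_prop)

theorem hh_loc (hN : 12 ≤ N) (hd : ∀ i, d i ≤ N) (n K : ℕ) :
    LocallyLipschitzOn (inst N d n K).V (hh N d) := by
  rintro z ⟨s, hs, hz⟩
  refine ⟨2, s.c.set, mem_nhdsWithin_of_mem_nhds ((isOpen_disk s.c).mem_nhds hz), ?_⟩
  apply LipschitzOnWith.of_dist_le_mul
  intro x hx y hy
  rw [Real.dist_eq]
  refine (hh_lip hN hd hs hx hy).trans ?_
  have h1 : |x.1 - y.1| ≤ dist x y := by
    rw [← Real.dist_eq]
    exact le_max_left _ _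
  have h2 : |x.2 - y.2| ≤ dist x y := by
    rw [← Real.dist_eq]
    exact le_max_right _ _
  have h3 : ((2 : NNReal) : ℝ) = 2 := rfl
  rw [h3]
  linarith

theorem vsum (n : ℕ) : ∑ j ∈ Finset.range n, vv N d (j + 1) =
    ∑ j ∈ Finset.range n, √(d (j + 1) : ℝ) - 3 / 5 * ((rsum N d n : ℚ) : ℝ) := by
  unfold vv rsum
  rw [Finset.sum_sub_distrib, ← Finset.mul_sum]
  push_cast
  rfl

/-- the points of the disks of the function steps are in the first and in the last link disk -/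
theorem mem_first (hN : 12 ≤ N) (hd : ∀ i, d i ≤ N) {n K : ℕ} {z : ℝ × ℝ}
    (hz : z ∈ (inst N d n K).V) {k : ℕ} (h1 : 3 * (N : ℝ) * k + 3 / 2 * N - 1 < z.1)
    (h2 : z.1 < 3 * (N : ℝ) * k + 3 / 2 * N + 1) : z ∈ (link N d k).set := by
  have hN' : (12 : ℝ) ≤ N := by exact_mod_cast hN
  obtain ⟨s, hs, hz⟩ := hz
  simp only [inst, List.mem_append, List.mem_map, List.mem_range] at hs
  rcases hs with (⟨i, -, rfl⟩ | ⟨i, -, rfl⟩) | ⟨i, -, rfl⟩
  · have hx := link_x hN hd hz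
    have e1 : i ≤ k := lt_of_mul hN (x := z.1) (by linarith [hx.1]) (by linarith)
    have e2 : k ≤ i := lt_of_mul hN (x := z.1) (by linarith) (by linarith [hx.2])
    have e3 : i = k := le_antisymm e1 e2
    subst e3
    exact hz
  · exfalso
    have hx := left_x hN hd hz
    push_cast at hx
    rcases Nat.lt_or_ge k (i + 1) with h3 | h3
    · have h4 : (k : ℝ) ≤ i := by exact_mod_cast Nat.lt_succ_iff.1 h3
      nlinarith [hx.1]
    · have h4 : (i : ℝ) + 1 ≤ k := by exact_mod_cast h3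
      nlinarith [hx.2]
  · exfalso
    have hx := right_x hN hd hz
    push_cast at hx
    rcases Nat.lt_or_ge k (i + 1) with h3 | h3
    · have h4 : (k : ℝ) ≤ i := by exact_mod_cast Nat.lt_succ_iff.1 h3
      nlinarith [hx.1]
    · have h4 : (i : ℝ) + 1 ≤ k := by exact_mod_cast h3
      nlinarith [hx.2]

theorem consistent_of_le (hN : 12 ≤ N) (hd : ∀ i, d i ≤ N) {n K : ℕ}
    (h : ∑ j ∈ Finset.range n, √(d (j + 1) : ℝ) ≤ K) : (inst N d n K).Consistent := by
  have hN' : (12 : ℝ) ≤ N := by exact_mod_cast hN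
  refine ⟨hh N d, hh_loc hN hd n K, ?_, ?_⟩
  · intro s hs z hz
    simp only [inst, List.mem_cons, List.not_mem_nil, or_false] at hs
    rcases hs with rfl | rfl
    · have h1 := hz.1
      unfold Disk.set at h1
      simp only [Set.mem_ofPred_eq] at h1
      push_cast at h1
      have h2 : |z.1 - 3 / 2 * (N : ℝ)| < 1 := by
        apply abs_lt_of_sq_lt_sq _ (by norm_num)
        nlinarith [sq_nonneg z.2]
      rw [abs_lt] at h2
      have h3 : z ∈ (link N d 0).set :=
        mem_first hN hd hz.2 (by push_cast; linarith [h2.1]) (by push_cast; linarith [h2.2])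
      rw [hh_link hN hd h3]
      unfold TT
      simp only [Finset.range_zero, Finset.sum_empty]
      push_cast
      constructor <;> linarith [h2.1, h2.2]
    · have h1 := hz.1
      unfold Disk.set at h1
      simp only [Set.mem_ofPred_eq] at h1
      push_cast at h1
      have h2 : |z.1 - (3 * (N : ℝ) * n + 3 / 2 * (N : ℝ))| < 1 := by
        apply abs_lt_of_sq_lt_sq _ (by norm_num)
        nlinarith [sq_nonneg z.2]
      rw [abs_lt] at h2
      have h3 : z ∈ (link N d n).set :=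
        mem_first hN hd hz.2 (by linarith [h2.1]) (by linarith [h2.2])
      rw [hh_link hN hd h3]
      unfold TT
      rw [vsum]
      have h4 : 0 ≤ ∑ j ∈ Finset.range n, √(d (j + 1) : ℝ) :=
        Finset.sum_nonneg fun j _ => Real.sqrt_nonneg _
      push_cast
      constructor <;> linarith [h2.1, h2.2]
  · intro s hs x hx y hy
    rw [poly_mem hs]
    exact exists_grad (hh_lip hN hd hs hx hy)

end Pool.Agent.SSR75
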